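import Pool.Agent.Helper16.AZ.Stmts

/-!
Moebius disjointness of compact group extensions of minimal rotations of the torus:
module XGR (skew products with values in a closed subgroup).
-/

open Finset Filter MeasureTheory Topology
open scoped ComplexConjugate InnerProductSpace

namespace Pool.Agent.Helper16.AZ

open Pool.Agent.Helper16.MD (MS PB Am RW Rich)
open UnitAddTorus (mFourier)

theorem xgr_iterate {r d : ℕ} (G : Subgroup (Matrix.unitaryGroup (Fin d) ℂ)) (β : T r)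
    (Φ : C(T r, G)) (Φ1 : C(T r, Matrix.unitaryGroup (Fin d) ℂ))
    (hΦ : ∀ θ, Φ1 θ = (Φ θ : Matrix.unitaryGroup (Fin d) ℂ)) (n : ℕ) (y : T r × G) :
    (SK β Φ1)^[n] (y.1, (y.2 : Matrix.unitaryGroup (Fin d) ℂ)) =
      (((SKG G β Φ)^[n] y).1, (((SKG G β Φ)^[n] y).2 : Matrix.unitaryGroup (Fin d) ℂ)) := by
  induction n generalizing y with
  | zero => rfl
  | succ n ih =>
    rw [Function.iterate_succ_apply, Function.iterate_succ_apply, ← ih (SKG G β Φ y)]
    have h : SK β Φ1 (y.1, (y.2 : Matrix.unitaryGroup (Fin d) ℂ)) =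
        ((SKG G β Φ y).1, ((SKG G β Φ y).2 : Matrix.unitaryGroup (Fin d) ℂ)) := by
      simp only [SK, SKG, hΦ, Subgroup.coe_mul]
    rw [h]

theorem st_XGR (h1 : ST_XTH) : ST_XGR := by
  intro r d G β Φ hG hβ hLM F y
  let Φ1 : C(T r, Matrix.unitaryGroup (Fin d) ℂ) :=
    ⟨fun θ => (Φ θ : Matrix.unitaryGroup (Fin d) ℂ), continuous_subtype_val.comp Φ.continuous⟩
  have hΦ : ∀ θ, Φ1 θ = (Φ θ : Matrix.unitaryGroup (Fin d) ℂ) := fun θ => rfl
  have hemb : IsClosedEmbedding (fun y : T r × G =>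
      ((y.1, (y.2 : Matrix.unitaryGroup (Fin d) ℂ)) : XX r d)) :=
    (IsClosedEmbedding.id (X := T r)).prodMap hG.isClosedEmbedding_subtypeVal
  obtain ⟨F1, hF1⟩ := F.exists_extension' hemb
  have h2 := h1 r d β Φ1 hβ hLM F1 (y.1, (y.2 : Matrix.unitaryGroup (Fin d) ℂ))
  have h3 : ∀ n, F1 ((SK β Φ1)^[n] (y.1, (y.2 : Matrix.unitaryGroup (Fin d) ℂ))) =
      F ((SKG G β Φ)^[n] y) := by
    intro n
    rw [xgr_iterate G β Φ Φ1 hΦ n y]
    exact congrFun hF1 ((SKG G β Φ)^[n] y)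
  simp only [h3] at h2
  exact h2

end Pool.Agent.Helper16.AZ
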